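import Mathlib

namespace Pool.Agent.Results.MP_ce2a64_co.Counter

open SimpleGraph

/-- radio graceful: a radio labelling whose image is `{0, …, |V| - 1}` -/
def RadioGraceful {V : Type} [Fintype V] (G : SimpleGraph V) : Prop :=
  ∃ f : V → ℕ, (∀ u v, u ≠ v → (G.diam : ℤ) + 1 - G.dist u v ≤ |(f u : ℤ) - f v|) ∧
    Set.range f = Set.Iio (Fintype.card V)

def X (a b : Fin 10) : Bool :=
  if a = b then false else if a = 9 then b.val % 3 != 2 else if b = 9 then a.val % 3 != 2
  else a.val / 3 == b.val / 3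

def G : SimpleGraph (Fin 10) where
  Adj a b := a ≠ b ∧ X a b = false
  symm := ⟨by decide⟩
  loopless := ⟨by decide⟩

instance : DecidableRel G.Adj := fun a b => inferInstanceAs (Decidable (a ≠ b ∧ X a b = false))

def δ (a b : Fin 10) : ℕ := if a = b then 0 else if X a b then 2 else 1

lemma edist_G (a b : Fin 10) : G.edist a b = δ a b := by
  by_cases h : a = b
  · simp [δ, h]
  by_cases h2 : X a b = true
  · have h3 : ∀ a b, X a b = true → ∃ w, G.Adj a w ∧ G.Adj w b := by decide +kernel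
    obtain ⟨w, hw1, hw2⟩ := h3 a b h2
    rw [(edist_eq_two_iff (G := G)).mpr ⟨h, fun e => by simp [e.2] at h2, w, hw1, hw2.symm⟩]
    simp [δ, h, h2]
  · have : G.Adj a b := ⟨h, by simpa using h2⟩
    simp [δ, h, h2, edist_eq_one_iff_adj.mpr this]

lemma edist_P (u v : Fin 10 × Fin 3) : (G □ (⊤ : SimpleGraph (Fin 3))).edist u v =
    (δ u.1 v.1 + if u.2 = v.2 then 0 else 1 : ℕ) := by
  rw [edist_boxProd, edist_G]
  by_cases h : u.2 = v.2
  · simp [h]
  · simp [h, edist_top_of_ne h]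

def lab (u : Fin 10 × Fin 3) : ℕ :=
  ![![0, 3, 6], ![4, 1, 28], ![29, 5, 2], ![14, 8, 11], ![16, 10, 13], ![12, 15, 9],
    ![24, 18, 21], ![26, 20, 23], ![19, 22, 25], ![7, 27, 17]] u.1 u.2

set_option synthInstance.maxSize 4096 in
lemma nopath : ∀ a b, X a b → ∀ c, X b c → c ∉ [a] → ∀ d, X c d → d ∉ [a, b] →
    ∀ e, X d e → e ∉ [a, b, c] → ∀ f, X e f → f ∉ [a, b, c, d] →
    ∀ g, X f g → g ∉ [a, b, c, d, e] → ∀ h, X g h → h ∈ [a, b, c, d, e, f] := by
  decide +kernel

theorem result : ∃ (m n : ℕ) (G : SimpleGraph (Fin m)) (H : SimpleGraph (Fin n)),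
    G.Connected ∧ H.Connected ∧ RadioGraceful (G □ H) ∧ ¬ RadioGraceful G := by
  have hc : G.Connected := by
    rw [connected_iff]
    refine ⟨fun a b => edist_ne_top_iff_reachable.mp ?_, inferInstance⟩
    rw [edist_G]
    simp
  refine ⟨10, 3, G, ⊤, hc, connected_top, ⟨lab, ?_, ?_⟩, ?_⟩
  · intro u v huv
    have h1 : (G □ (⊤ : SimpleGraph (Fin 3))).diam ≤ 3 := by
      refine ENat.toNat_le_of_le_natCast (ediam_le_of_edist_le fun u v => ?_)
      rw [edist_P]
      have : ∀ u v : Fin 10 × Fin 3, (δ u.1 v.1 + if u.2 = v.2 then 0 else 1) ≤ 3 := by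
        decide +kernel
      exact_mod_cast this u v
    have h2 : ∀ u v : Fin 10 × Fin 3, u ≠ v →
        (3 : ℤ) + 1 - (δ u.1 v.1 + if u.2 = v.2 then 0 else 1 : ℕ) ≤ |(lab u : ℤ) - lab v| := by
      decide +kernel
    rw [SimpleGraph.dist, edist_P, ENat.toNat_natCast]
    have := h2 u v huv
    omega
  · have h1 : ∀ u, lab u < 30 := by decide +kernel
    have h2 : ∀ k < 30, ∃ u, lab u = k := by decide +kernel
    ext k
    exact ⟨by rintro ⟨u, rfl⟩; simpa using h1 u, fun h => h2 k (by simpa using h)⟩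
  · rintro ⟨f, h1, h2⟩
    have hd : 2 ≤ G.diam := by
      have : G.ediam ≠ ⊤ := connected_iff_ediam_ne_top.mp hc
      have := dist_le_diam this (u := 0) (v := 1)
      rwa [SimpleGraph.dist, edist_G, ENat.toNat_natCast] at this
    have h3 : ∀ k : ℕ, ∃ u, k < 10 → f u = k := by
      intro k
      by_cases hk : k < 10
      · obtain ⟨u, hu⟩ : k ∈ Set.range f := by rw [h2]; simpa using hk
        exact ⟨u, fun _ => hu⟩
      · exact ⟨0, fun h => absurd h hk⟩
    choose σ hσ using h3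
    have hne : ∀ i j, i < 10 → j < 10 → i ≠ j → σ i ≠ σ j := fun i j hi hj hij e =>
      hij (by rw [← hσ i hi, e, hσ j hj])
    have hX : ∀ i, i + 1 < 10 → X (σ i) (σ (i + 1)) := by
      intro i hi
      have e := hne i (i + 1) (by omega) hi (by omega)
      have := h1 _ _ e
      rw [SimpleGraph.dist, edist_G, ENat.toNat_natCast, hσ i (by omega), hσ _ hi] at this
      by_contra hx
      simp only [δ, e, hx, if_false] at this
      simp at this
      omega
    have := nopath (σ 0) (σ 1) (hX 0 (by norm_num)) (σ 2) (hX 1 (by norm_num)) (by simp [hne])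
      (σ 3) (hX 2 (by norm_num)) (by simp [hne]) (σ 4) (hX 3 (by norm_num)) (by simp [hne])
      (σ 5) (hX 4 (by norm_num)) (by simp [hne]) (σ 6) (hX 5 (by norm_num)) (by simp [hne])
      (σ 7) (hX 6 (by norm_num))
    simp [hne] at this

end Pool.Agent.Results.MP_ce2a64_co.Counter
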